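import Mathlib
import Pool.Agent.Helper48.AA.Goals

/-! Packet RLB of project AA. -/

set_option autoImplicit false

open Finset

namespace Pool.Agent.Helper93.AA

open Polynomial

/-- `∏ (4 (X + t) + 4 i + 2)`, `i < j` -/
noncomputable def A (q j t : ℕ) : (ZMod q)[X] :=
  ∏ i ∈ range j, (C 4 * X + C (4 * ((i : ZMod q) + t) + 2))

/-- `∏ (X + t + i + 1)`, `i < j` -/
noncomputable def B (q j t : ℕ) : (ZMod q)[X] :=
  ∏ i ∈ range j, (C 1 * X + C ((i : ZMod q) + t + 1))

/-- the polynomial of the shift `s` -/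
noncomputable def F (q j s : ℕ) : (ZMod q)[X] :=
  B q j 0 * A q s 0 * (A q j s - B q j s) - (A q j 0 - B q j 0) * B q j s * B q s 0

theorem degA (q j t : ℕ) : (A q j t).natDegree ≤ j := by
  unfold A
  refine (natDegree_prod_le _ _).trans ?_
  refine (Finset.sum_le_sum (fun i _ => natDegree_linear_le)).trans ?_
  simp

theorem degB (q j t : ℕ) : (B q j t).natDegree ≤ j := by
  unfold B
  refine (natDegree_prod_le _ _).trans ?_
  refine (Finset.sum_le_sum (fun i _ => natDegree_linear_le)).trans ?_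
  simp

theorem degF (q j s : ℕ) : (F q j s).natDegree ≤ 2 * j + s := by
  unfold F
  refine (natDegree_sub_le _ _).trans (max_le ?_ ?_)
  · refine natDegree_mul_le.trans ?_
    have h1 : (B q j 0 * A q s 0).natDegree ≤ j + s :=
      natDegree_mul_le.trans (add_le_add (degB _ _ _) (degA _ _ _))
    have h2 : (A q j s - B q j s).natDegree ≤ j :=
      (natDegree_sub_le _ _).trans (max_le (degA _ _ _) (degB _ _ _))
    omega
  · refine natDegree_mul_le.trans ?_
    have h1 : ((A q j 0 - B q j 0) * B q j s).natDegree ≤ j + j :=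
      natDegree_mul_le.trans (add_le_add ((natDegree_sub_le _ _).trans (max_le (degA _ _ _) (degB _ _ _)))
        (degB _ _ _))
    have h2 := degB q s 0
    omega

theorem evA (q j t : ℕ) (x : ZMod q) : (A q j t).eval x = ∏ i ∈ range j, (4 * x + (4 * ((i : ZMod q) + t) + 2)) := by
  unfold A
  rw [eval_prod]
  refine Finset.prod_congr rfl (fun i _ => ?_)
  simp

theorem evB (q j t : ℕ) (x : ZMod q) : (B q j t).eval x = ∏ i ∈ range j, (x + ((i : ZMod q) + t + 1)) := by
  unfold B
  rw [eval_prod]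
  refine Finset.prod_congr rfl (fun i _ => ?_)
  simp

theorem cbk (a s : ℕ) : Nat.centralBinom (a + s) * ∏ i ∈ range s, (a + i + 1)
    = Nat.centralBinom a * ∏ i ∈ range s, (4 * (a + i) + 2) := by
  induction s with
  | zero => simp
  | succ s ih =>
    rw [Finset.prod_range_succ, Finset.prod_range_succ]
    have h := Nat.succ_mul_centralBinom_succ (a + s)
    calc Nat.centralBinom (a + (s + 1)) * ((∏ i ∈ range s, (a + i + 1)) * (a + s + 1))
        = (∏ i ∈ range s, (a + i + 1)) * ((a + s + 1) * Nat.centralBinom (a + s + 1)) := by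
          rw [← add_assoc]; ring
      _ = (∏ i ∈ range s, (a + i + 1)) * (2 * (2 * (a + s) + 1) * Nat.centralBinom (a + s)) := by rw [h]
      _ = (Nat.centralBinom (a + s) * ∏ i ∈ range s, (a + i + 1)) * (4 * (a + s) + 2) := by ring
      _ = Nat.centralBinom a * ((∏ i ∈ range s, (4 * (a + i) + 2)) * (4 * (a + s) + 2)) := by rw [ih]; ring

/-- `h_(a+t+j) B_j(a+t) = h_(a+t) A_j(a+t)` -/
theorem key (q a j t : ℕ) : (Nat.centralBinom (a + t + j) : ZMod q) * (B q j t).eval (a : ZMod q)
    = (Nat.centralBinom (a + t) : ZMod q) * (A q j t).eval (a : ZMod q) := by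
  rw [evA, evB]
  have h := congrArg (Nat.cast : ℕ → ZMod q) (cbk (a + t) j)
  push_cast at h
  have h1 : ∏ i ∈ range j, ((a : ZMod q) + ((i : ZMod q) + t + 1)) = ∏ i ∈ range j, ((a : ZMod q) + t + i + 1) :=
    Finset.prod_congr rfl (fun i _ => by ring)
  have h2 : ∏ i ∈ range j, (4 * (a : ZMod q) + (4 * ((i : ZMod q) + t) + 2))
      = ∏ i ∈ range j, (4 * ((a : ZMod q) + t + i) + 2) :=
    Finset.prod_congr rfl (fun i _ => by ring)
  rw [h1, h2]
  exact h

/-- the sets of solutions -/
def Us (q j u g : ℕ) (a : ℕ) : Prop :=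
  2 * (a + j) < q ∧ u * Nat.centralBinom (a + j) ≡ u * Nat.centralBinom a + g [MOD q]

theorem sol {q j u g a t : ℕ} (h : Us q j u g (a + t)) :
    (g : ZMod q) * (B q j t).eval (a : ZMod q) = (u : ZMod q) * (Nat.centralBinom (a + t) : ZMod q) *
      ((A q j t).eval (a : ZMod q) - (B q j t).eval (a : ZMod q)) := by
  have h1 := (ZMod.natCast_eq_natCast_iff _ _ _).2 h.2
  push_cast at h1
  have h2 := key q a j t
  linear_combination (u : ZMod q) * h2 - (B q j t).eval (a : ZMod q) * h1

theorem root {q j u g a s : ℕ} (hq : q.Prime) (hg : ¬ q ∣ g) (h0 : Us q j u g a) (hs : Us q j u g (a + s)) :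
    (F q j s).eval (a : ZMod q) = 0 := by
  have := Fact.mk hq
  have hg0 : (g : ZMod q) ≠ 0 := fun h => hg ((ZMod.natCast_eq_zero_iff _ _).1 h)
  have e0 := sol (t := 0) (a := a) (by simpa using h0)
  have e1 := sol (t := s) (a := a) hs
  have e2 := key q a s 0
  rw [add_zero] at e0 e2
  refine (mul_eq_zero.1 (?_ : (g : ZMod q) * (F q j s).eval (a : ZMod q) = 0)).resolve_left hg0
  unfold F
  simp only [eval_sub, eval_mul]
  linear_combination ((A q s 0).eval (a : ZMod q) * ((A q j s).eval (a : ZMod q) - (B q j s).eval (a : ZMod q))) * e0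
    - ((A q j 0).eval (a : ZMod q) - (B q j 0).eval (a : ZMod q)) * (B q s 0).eval (a : ZMod q) * e1
    - (u : ZMod q) * ((A q j 0).eval (a : ZMod q) - (B q j 0).eval (a : ZMod q)) *
      ((A q j s).eval (a : ZMod q) - (B q j s).eval (a : ZMod q)) * e2

/-- a half integer which is not zero -/
theorem half {q : ℕ} (hq : q.Prime) {m : ℕ} (hm : 2 * m + 1 < q) (x : ZMod q) (hx : 2 * x = -1) :
    x + ((m : ZMod q) + 1) ≠ 0 := by
  have := Fact.mk hq
  intro h
  have h1 : ((2 * m + 1 : ℕ) : ZMod q) = 0 := by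
    push_cast
    linear_combination 2 * h - hx
  have h2 := (ZMod.natCast_eq_zero_iff _ _).1 h1
  have := Nat.le_of_dvd (by omega) h2
  omega

theorem F_ne {q j s : ℕ} (hq : q.Prime) (hj : 1 ≤ j) (hs : 1 ≤ s) (hsj : 2 * (s + j) < q) : F q j s ≠ 0 := by
  have := Fact.mk hq
  have h2 : (2 : ZMod q) ≠ 0 := by
    intro h
    have h1 : ((2 : ℕ) : ZMod q) = 0 := by exact_mod_cast h
    have := Nat.le_of_dvd (by omega) ((ZMod.natCast_eq_zero_iff _ _).1 h1)
    omega
  obtain ⟨x, hx⟩ : ∃ x : ZMod q, 2 * x = -1 := ⟨(-1) / 2, mul_div_cancel₀ _ h2⟩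
  have hA : ∀ k : ℕ, 1 ≤ k → (A q k 0).eval x = 0 := by
    intro k hk
    rw [evA]
    refine Finset.prod_eq_zero (mem_range.2 (by omega : 0 < k)) ?_
    push_cast
    linear_combination 2 * hx
  have hB : ∀ k t : ℕ, 2 * (t + k) < q → (B q k t).eval x ≠ 0 := by
    intro k t hk
    rw [evB]
    refine Finset.prod_ne_zero_iff.2 (fun i hi => ?_)
    have hi' := mem_range.1 hi
    have := half hq (m := i + t) (by omega) x hx
    push_cast at this
    exact this
  intro h
  have h3 : (F q j s).eval x = 0 := by rw [h]; simp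
  unfold F at h3
  simp only [eval_sub, eval_mul] at h3
  rw [hA j hj, hA s hs] at h3
  have h4 : (B q j 0).eval x * (B q j s).eval x * (B q s 0).eval x = 0 := by linear_combination h3
  have h5 := mul_ne_zero (mul_ne_zero (hB j 0 (by omega)) (hB j s (by omega))) (hB s 0 (by omega))
  exact h5 h4

open scoped Classical in
theorem gRLB : Pool.Agent.Helper48.AA.StmtRLB := by
  intro q S len j u g hq hS hj hSj hg
  have := Fact.mk hq
  set U : Finset ℕ := (range len).filter (fun a => 2 * (a + j) < q ∧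
    u * Nat.centralBinom (a + j) ≡ u * Nat.centralBinom a + g [MOD q]) with hU
  have hmem : ∀ a, a ∈ U ↔ a < len ∧ Us q j u g a := by
    intro a
    rw [hU, mem_filter, mem_range]
    rfl
  have hcov : U ⊆ (U.filter (fun a => ∀ s, 1 ≤ s → s < S → a + s ∉ U)) ∪
      ((Ico 1 S).biUnion (fun s => U.filter (fun a => a + s ∈ U))) := by
    intro a ha
    by_cases h : ∀ s, 1 ≤ s → s < S → a + s ∉ U
    · exact mem_union_left _ (mem_filter.2 ⟨ha, h⟩)
    · push Not at h
      obtain ⟨s, h1, h2, h3⟩ := h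
      exact mem_union_right _ (mem_biUnion.2 ⟨s, mem_Ico.2 ⟨h1, h2⟩, mem_filter.2 ⟨ha, h3⟩⟩)
  have c1 : (U.filter (fun a => ∀ s, 1 ≤ s → s < S → a + s ∉ U)).card ≤ len / S + 1 := by
    rw [← card_range (len / S + 1)]
    refine card_le_card_of_injOn (fun a => a / S) ?_ ?_
    · intro a ha
      have ha1 := (hmem a).1 (mem_filter.1 (mem_coe.1 ha)).1
      exact mem_coe.2 (mem_range.2 (Nat.lt_succ_of_le (Nat.div_le_div_right ha1.1.le)))
    · have aux : ∀ a b : ℕ, a ∈ U.filter (fun a => ∀ s, 1 ≤ s → s < S → a + s ∉ U) → b ∈ U → a / S = b / S →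
          ¬ a < b := by
        intro a b ha hb hab hlt
        have h1 := (mem_filter.1 ha).2 (b - a) (by omega) (by
          have e1 := Nat.div_add_mod a S
          have e2 := Nat.div_add_mod b S
          have e3 := Nat.mod_lt b hS
          rw [hab] at e1
          omega)
        apply h1
        rw [show a + (b - a) = b by omega]
        exact hb
      intro a ha b hb hab
      have ha' := mem_coe.1 ha
      have hb' := mem_coe.1 hb
      have h1 := aux a b ha' (mem_filter.1 hb').1 hab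
      have h2 := aux b a hb' (mem_filter.1 ha').1 hab.symm
      omega
  have c2 : ∀ s ∈ Ico 1 S, (U.filter (fun a => a + s ∈ U)).card ≤ 2 * j + S := by
    intro s hs
    obtain ⟨hs1, hs2⟩ := mem_Ico.1 hs
    have hne := F_ne hq hj hs1 (j := j) (by omega)
    have h1 : ((U.filter (fun a => a + s ∈ U)).image (fun a : ℕ => (a : ZMod q))).card ≤ (F q j s).natDegree := by
      apply card_le_degree_of_subset_roots
      intro y hy
      have hy' : y ∈ (U.filter (fun a => a + s ∈ U)).image (fun a : ℕ => (a : ZMod q)) := hy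
      obtain ⟨a, ha, rfl⟩ := mem_image.1 hy'
      rw [mem_roots hne]
      exact root hq hg ((hmem a).1 (mem_filter.1 ha).1).2 ((hmem _).1 (mem_filter.1 ha).2).2
    rw [card_image_of_injOn] at h1
    · have := degF q j s
      omega
    · intro a ha b hb hab
      have ha1 := ((hmem a).1 (mem_filter.1 (mem_coe.1 ha)).1).2.1
      have hb1 := ((hmem b).1 (mem_filter.1 (mem_coe.1 hb)).1).2.1
      have := (ZMod.natCast_eq_natCast_iff' _ _ _).1 hab
      rwa [Nat.mod_eq_of_lt (by omega), Nat.mod_eq_of_lt (by omega)] at this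
  have c3 := card_le_card hcov
  have c4 := card_union_le (U.filter (fun a => ∀ s, 1 ≤ s → s < S → a + s ∉ U))
    ((Ico 1 S).biUnion (fun s => U.filter (fun a => a + s ∈ U)))
  have c5 := card_biUnion_le_card_mul (Ico 1 S) (fun s => U.filter (fun a => a + s ∈ U)) (2 * j + S) c2
  rw [Nat.card_Ico] at c5
  have c6 : (S - 1) * (2 * j + S) ≤ S ^ 2 + 2 * j * S := by
    have : (S - 1) * (2 * j + S) ≤ S * (2 * j + S) := Nat.mul_le_mul_right _ (Nat.sub_le _ _)
    calc (S - 1) * (2 * j + S) ≤ S * (2 * j + S) := this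
      _ = S ^ 2 + 2 * j * S := by ring
  omega

end Pool.Agent.Helper93.AA
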